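import Pool.Agent.H22.FOT.Defs

/-! Row CUR of the board fot (MP_f0e2ba_pr): the set of uniqueness is open to the left. -/

open MeasureTheory unitInterval Set Filter Topology

namespace Pool.FOT.CURrow

open Pool.Agent.H99.LowerTail

lemma integrable_sqW (W : Graphon) (q : ℝ) :
    Integrable (fun z : I × I => (W z.1 z.2 - q) ^ 2) :=
  integrable_comp (f := fun t => (t - q) ^ 2) (by fun_prop) W

lemma nsq_le (W : Graphon) (q m : ℝ) : nsq W q ≤ 2 * nsq W m + 2 * (m - q) ^ 2 := by
  unfold nsq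
  have h1 : Integrable (fun z : I × I => 2 * (W z.1 z.2 - m) ^ 2) :=
    (integrable_sqW W m).const_mul 2
  have h2 : ∫ z : I × I, (2 * (W z.1 z.2 - m) ^ 2 + 2 * (m - q) ^ 2) =
      2 * (∫ z : I × I, (W z.1 z.2 - m) ^ 2) + 2 * (m - q) ^ 2 := by
    rw [integral_add h1 (integrable_const _), integral_const_mul]
    simp
  rw [← h2]
  refine integral_mono (integrable_sqW W q) (h1.add (integrable_const _)) fun z => ?_
  show (W z.1 z.2 - q) ^ 2 ≤ 2 * (W z.1 z.2 - m) ^ 2 + 2 * (m - q) ^ 2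
  nlinarith [sq_nonneg ((W z.1 z.2 - m) - (m - q))]

lemma mean_of_ae {W : Graphon} {q : ℝ} (h : ∀ᵐ z : I × I, W z.1 z.2 = q) : mean W = q := by
  unfold mean
  rw [integral_congr_ae (g := fun _ => q) h]
  simp

end Pool.FOT.CURrow

namespace Pool.FOT

open Pool.Agent.H99.LowerTail CURrow

theorem t_cur (hLOC : LOCStmt) (hCPT : CPTStmt) (hVAR : VARStmt) : CURStmt := by
  intro V _ H hH p q0 hq0 hqp hp1 hu
  have hp0 : 0 < p := hq0.trans hqp
  by_contra hcon
  push Not at hcon
  -- the sequence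
  set qn : ℕ → ℝ := fun n => q0 - q0 / (n + 2) with hqn
  have hlow : ∀ n, q0 / 2 ≤ qn n := by
    intro n
    have h2 : q0 / ((n : ℝ) + 2) ≤ q0 / 2 := by
      apply div_le_div_of_nonneg_left hq0.le (by norm_num)
      have : (0 : ℝ) ≤ n := n.cast_nonneg
      linarith
    show q0 / 2 ≤ q0 - q0 / ((n : ℝ) + 2)
    linarith
  have hup : ∀ n, qn n < q0 := by
    intro n
    have : 0 < q0 / ((n : ℝ) + 2) := by positivity
    show q0 - q0 / ((n : ℝ) + 2) < q0
    linarith
  have hpos : ∀ n, 0 < qn n := fun n => (half_pos hq0).trans_le (hlow n)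
  have hlimat : Tendsto qn atTop (𝓝 q0) := by
    have h1 : Tendsto (fun n : ℕ => q0 / ((n : ℝ) + 2)) atTop (𝓝 0) := by
      refine Tendsto.div_atTop tendsto_const_nhds ?_
      exact tendsto_atTop_add_const_right _ _ tendsto_natCast_atTop_atTop
    have h2 := (tendsto_const_nhds (x := q0) (f := (atTop : Filter ℕ))).sub h1
    rw [sub_zero] at h2
    exact h2
  have hhyp : (hyperfilter ℕ : Filter ℕ) ≤ atTop := by
    rw [← Nat.cofinite_eq_atTop]
    exact hyperfilter_le_cofinite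
  have hlim : Tendsto qn (hyperfilter ℕ : Filter ℕ) (𝓝 q0) := hlimat.mono_left hhyp
  have hex : ∀ n, ∃ W : Graphon, homDensity H W ≤ qn n ^ numEdges H ∧
      cost p W < relEnt p (qn n) := by
    intro n
    have h := hcon (qn n) (hpos n) (hup n)
    unfold IsMinimizer at h
    push Not at h
    exact h
  choose W hWd hWc using hex
  obtain ⟨ε, hε, hloc⟩ := hLOC V H hH p (q0 / 2) (half_pos hq0) (by linarith) hp1
  have hbig : ∀ n, ε < nsq (W n) (qn n) := by
    intro n
    by_contra hle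
    have := (hloc (qn n) (hlow n) ((hup n).le.trans hqp.le) (W n) (not_lt.1 hle) (hWd n)).1
    linarith [hWc n]
  obtain ⟨W0, hd, hm, hc⟩ := hCPT p hp0 hp1 W
  have hd0 : homDensity H W0 ≤ q0 ^ numEdges H := by
    refine le_of_tendsto (hd V H) (Eventually.of_forall fun n => (hWd n).trans ?_)
    exact pow_le_pow_left₀ (hpos n).le (hup n).le _
  have hrelim : Tendsto (fun n => relEnt p (qn n)) (hyperfilter ℕ : Filter ℕ)
      (𝓝 (relEnt p q0)) := ((continuous_relEnt hp0 hp1).tendsto q0).comp hlim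
  have hc0 : cost p W0 ≤ relEnt p q0 := by
    refine le_of_forall_gt_imp_ge_of_dense fun c hcc => hc c ?_
    filter_upwards [hrelim.eventually (gt_mem_nhds hcc)] with n hn
    exact ((hWc n).trans hn).le
  have hae := hu.2 W0 hd0 (le_antisymm hc0 (hu.1 W0 hd0))
  rw [mean_of_ae hae] at hm
  -- the norm tends to zero
  have hre2 : Tendsto (fun n => relEnt p (mean (W n))) (hyperfilter ℕ : Filter ℕ)
      (𝓝 (relEnt p q0)) := ((continuous_relEnt hp0 hp1).tendsto q0).comp hm
  have hz : Tendsto (fun n => (relEnt p (qn n) - relEnt p (mean (W n))) +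
      2 * (mean (W n) - qn n) ^ 2) (hyperfilter ℕ : Filter ℕ) (𝓝 0) := by
    have h1 := (hrelim.sub hre2).add (((hm.sub hlim).pow 2).const_mul 2)
    simpa using h1
  have hev : ∀ᶠ n in (hyperfilter ℕ : Filter ℕ), nsq (W n) (qn n) ≤
      (relEnt p (qn n) - relEnt p (mean (W n))) + 2 * (mean (W n) - qn n) ^ 2 := by
    have hmem : Ioo (0 : ℝ) 1 ∈ 𝓝 q0 := Ioo_mem_nhds hq0 (hqp.trans hp1)
    filter_upwards [hm hmem] with n hn
    have h1 := hVAR p (W n) hp0 hp1 hn.1 hn.2
    have h2 := nsq_le (W n) (qn n) (mean (W n))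
    have h3 := (hWc n).le
    linarith
  have hev2 := hz.eventually (gt_mem_nhds hε)
  obtain ⟨n, hn1, hn2⟩ := (hev.and hev2).exists
  exact absurd (hbig n) (not_lt.2 (hn1.trans hn2.le))

end Pool.FOT
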