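import Pool.Agent.H22.FOT.Defs

/-! Row MAIN of the board fot (MP_f0e2ba_pr): assembly of the phase diagram. The lemmas on the
curve are copied from the hand-in `PhaseCurve`. -/

open MeasureTheory unitInterval Set Filter Topology

namespace Pool.FOT.MAINrow

open Pool.Agent.H99.LowerTail

variable {V : Type} [Fintype V] (H : SimpleGraph V)

/-- The ratios `c` for which `(p, c p)` is replica symmetric. -/
def goodSet (p : ℝ) : Set ℝ := {c | 0 < c ∧ c ≤ 1 ∧ IsMinimizer H p (c * p)}

lemma one_mem {p : ℝ} (hp0 : 0 < p) (hp1 : p < 1) : (1 : ℝ) ∈ goodSet H p :=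
  ⟨one_pos, le_rfl, by rw [one_mul]; exact (isUniqueMinimizer_self H hp0 hp1).1⟩

lemma bddBelow_goodSet (p : ℝ) : BddBelow (goodSet H p) := ⟨0, fun _ hc => hc.1.le⟩

lemma rho_nonneg (p : ℝ) : 0 ≤ sInf (goodSet H p) := Real.sInf_nonneg fun _ hc => hc.1.le

lemma rho_le_one {p : ℝ} (hp0 : 0 < p) (hp1 : p < 1) : sInf (goodSet H p) ≤ 1 :=
  csInf_le (bddBelow_goodSet H p) (one_mem H hp0 hp1)

lemma unique_of_rho_lt {p q : ℝ} (hq0 : 0 < q) (hqp : q ≤ p) (hp1 : p < 1)
    (h : sInf (goodSet H p) * p < q) : IsUniqueMinimizer H p q := by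
  have hp0 : 0 < p := by linarith
  have h1 : sInf (goodSet H p) < q / p := by rwa [lt_div_iff₀ hp0]
  obtain ⟨c, hc, hcq⟩ := exists_lt_of_csInf_lt ⟨1, one_mem H hp0 hp1⟩ h1
  refine unique_of_lt H hp1 (mul_pos hc.1 hp0) ?_ hqp hc.2.2
  rwa [lt_div_iff₀ hp0] at hcq

lemma isMinimizer_iff {p q : ℝ} (hq0 : 0 < q) (hqp : q ≤ p) (hp1 : p < 1) :
    IsMinimizer H p q ↔ sInf (goodSet H p) * p ≤ q := by
  have hp0 : 0 < p := by linarith
  constructor
  · intro h
    have h1 : q / p ∈ goodSet H p :=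
      ⟨by positivity, (div_le_one hp0).2 hqp, by rwa [div_mul_cancel₀ _ hp0.ne']⟩
    have h2 := csInf_le (bddBelow_goodSet H p) h1
    rwa [le_div_iff₀ hp0] at h2
  · intro h
    rcases hqp.eq_or_lt with rfl | hlt
    · exact (isUniqueMinimizer_self H hp0 hp1).1
    · refine isMinimizer_of_forall_gt H hq0 hlt hp1 fun q' hq' hq'p => ?_
      exact (unique_of_rho_lt H (hq0.trans hq') hq'p hp1 (h.trans_lt hq')).1

lemma numEdges_pos (hH : H ≠ ⊥) : 0 < numEdges H := by
  classical
  rw [numEdges_eq, Finset.card_pos]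
  by_contra hne
  rw [Finset.not_nonempty_iff_eq_empty] at hne
  unfold edges at hne
  exact hH (SimpleGraph.edgeFinset_eq_empty.1 hne)

/-- With RLT the curve is strictly below one. -/
lemma rho_lt_one (hH : 0 < numEdges H) (hRLT : RLTStmt) {p : ℝ} (hp0 : 0 < p) (hp1 : p < 1) :
    sInf (goodSet H p) < 1 := by
  obtain ⟨q, hq0, hqp, hm⟩ := hRLT V H hH p hp0 hp1
  have h := (isMinimizer_iff H hq0 hqp.le hp1).1 hm
  by_contra hcon
  rw [not_lt] at hcon
  nlinarith

/-- With CUR the constant is the unique minimizer only strictly above the curve. -/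
lemma unique_iff (hH : 0 < numEdges H) (hRLT : RLTStmt) (hCUR : CURStmt) {p q : ℝ} (hq0 : 0 < q)
    (hqp : q ≤ p) (hp1 : p < 1) : IsUniqueMinimizer H p q ↔ sInf (goodSet H p) * p < q := by
  have hp0 : 0 < p := hq0.trans_le hqp
  constructor
  · intro h
    rcases hqp.eq_or_lt with rfl | hlt
    · have := rho_lt_one H hH hRLT hq0 hp1
      nlinarith
    · obtain ⟨q', hq'0, hq'q, hm⟩ := hCUR V H hH p q hq0 hlt hp1 h
      exact ((isMinimizer_iff H hq'0 (hq'q.le.trans hqp) hp1).1 hm).trans_lt hq'q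
  · exact unique_of_rho_lt H hq0 hqp hp1

end Pool.FOT.MAINrow

namespace Pool.FOT

open Pool.Agent.H99.LowerTail MAINrow

theorem t_main (hLOC : LOCStmt) (hRLT : RLTStmt) (hCUR : CURStmt) (hRGT : RGTStmt)
    (hRGZ : RGZStmt) (hEND : ENDStmt) : MAINStmt := by
  intro V _ H hbot
  have hH : 0 < numEdges H := numEdges_pos H hbot
  refine ⟨fun p => sInf (goodSet H p), ?_, ?_, ?_, ?_, ?_, ?_⟩
  · intro p hp
    exact ⟨rho_nonneg H p, rho_lt_one H hH hRLT hp.1 hp.2⟩
  · intro p q hq0 hqp hp1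
    exact ⟨isMinimizer_iff H hq0 hqp hp1, unique_iff H hH hRLT hCUR hq0 hqp hp1⟩
  · intro p q1 hq1 hq1p hp1
    obtain ⟨ε, hε, hloc⟩ := hLOC V H hH p q1 hq1 hq1p hp1
    refine ⟨ε, hε, fun q hq hqp W hW hc => ?_⟩
    by_cases hn : nsq W q ≤ ε
    · obtain ⟨h1, h2⟩ := hloc q hq hqp W hn hW
      exact Or.inl (h2 (le_antisymm hc h1))
    · exact Or.inr (not_le.1 hn)
  · intro r hr hcol p hp
    show relEnt p (sInf (goodSet H p) * p) ≤ relEnt p 0 / r
    rcases (rho_nonneg H p).eq_or_lt with h0 | h0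
    · rw [← h0, zero_mul]
      have hcont : Tendsto (relEnt p) (𝓝[>] 0) (𝓝 (relEnt p 0)) :=
        ((continuous_relEnt hp.1 hp.2).tendsto 0).mono_left nhdsWithin_le_nhds
      refine le_of_tendsto hcont ?_
      filter_upwards [Ioo_mem_nhdsGT hp.1] with q hq
      refine hRGT V H r hr hcol p q hq.1 hq.2.le hp.2 ?_
      refine (isMinimizer_iff H hq.1 hq.2.le hp.2).2 ?_
      rw [← h0, zero_mul]
      exact hq.1.le
    · have h1 : 0 < sInf (goodSet H p) * p := mul_pos h0 hp.1
      have h2 : sInf (goodSet H p) * p ≤ p := by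
        have := rho_le_one H hp.1 hp.2
        have := hp.1
        nlinarith
      exact hRGT V H r hr hcol p _ h1 h2 hp.2 ((isMinimizer_iff H h1 h2 hp.2).2 le_rfl)
  · intro hcol
    have hpos : ∀ p ∈ Ioo (0 : ℝ) 1, 0 < sInf (goodSet H p) := by
      intro p hp
      obtain ⟨q, hq0, hqp, hn⟩ := hRGZ V H hcol p hp.1 hp.2
      rw [isMinimizer_iff H hq0 hqp.le hp.2, not_le] at hn
      by_contra hcon
      have h0 : sInf (goodSet H p) = 0 := le_antisymm (not_lt.1 hcon) (rho_nonneg H p)
      rw [h0, zero_mul] at hn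
      exact absurd hn (not_lt.2 hq0.le)
    have hmin : ∀ p ∈ Ioo (0 : ℝ) 1, IsMinimizer H p (sInf (goodSet H p) * p) := by
      intro p hp
      have h2 : sInf (goodSet H p) * p ≤ p := by
        have := rho_le_one H hp.1 hp.2
        have := hp.1
        nlinarith
      exact (isMinimizer_iff H (mul_pos (hpos p hp) hp.1) h2 hp.2).2 le_rfl
    refine ⟨hpos, ?_, ?_⟩
    · intro p hp p' hp' hpp
      show sInf (goodSet H p) < sInf (goodSet H p')
      have hc1 := rho_le_one H hp'.1 hp'.2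
      have hu := unique_of_lt_p H hp.1 hpp hp'.2 (hpos p' hp') hc1 (hmin p' hp')
      have h3 : sInf (goodSet H p') * p ≤ p := by
        have := hp.1
        nlinarith
      have h4 := (unique_iff H hH hRLT hCUR (mul_pos (hpos p' hp') hp.1) h3 hp.2).1 hu
      exact lt_of_mul_lt_mul_right h4 hp.1.le
    · intro p hp p' hp' hpp
      show (1 - p') * sInf (goodSet H p') < (1 - p) * sInf (goodSet H p)
      have h1p : 0 < 1 - p := by linarith [hp.2]
      have h1p' : 0 < 1 - p' := by linarith [hp'.2]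
      have hc := hpos p hp
      have hp0 := hp.1
      set c := sInf (goodSet H p) with hcdef
      rcases le_or_gt (c * (1 - p) / (1 - p')) 1 with h | h
      · have hcpos : 0 < c * (1 - p) / (1 - p') := div_pos (mul_pos hc h1p) h1p'
        have hc' : c < c * (1 - p) / (1 - p') := by
          rw [lt_div_iff₀ h1p']
          nlinarith
        have h2 : c * p < c * (1 - p) / (1 - p') * p' := by
          nlinarith
        have h3 : c * (1 - p) / (1 - p') * p' ≤ p' := by
          have := hp'.1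
          nlinarith
        have e : c * (1 - p) / (1 - p') * p' * (p * (1 - p')) = c * p * (p' * (1 - p)) := by
          field_simp
        have hu := unique_of_scale H hp0 hpp.le hp'.2 (mul_pos hc hp0) h2 h3 e.ge (hmin p hp)
        have h4 := (unique_iff H hH hRLT hCUR (mul_pos hcpos hp'.1) h3 hp'.2).1 hu
        have h5 := lt_of_mul_lt_mul_right h4 hp'.1.le
        rw [lt_div_iff₀ h1p'] at h5
        linarith
      · have h2 := rho_le_one H hp'.1 hp'.2
        rw [lt_div_iff₀ h1p'] at h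
        nlinarith
  · intro hodd
    show Tendsto (fun p => sInf (goodSet H p)) (𝓝[<] 1) (𝓝 1)
    rw [tendsto_order]
    constructor
    · intro a ha
      set q := max a (1 / 2) with hq
      have hq0 : 0 < q := lt_of_lt_of_le (by norm_num) (le_max_right _ _)
      have hq1 : q < 1 := max_lt ha (by norm_num)
      obtain ⟨p0, hp0, hn⟩ := hEND V H hodd q hq0 hq1
      filter_upwards [Ioo_mem_nhdsLT (max_lt hp0 hq1)] with p hp
      have h1 : p0 < p := (le_max_left _ _).trans_lt hp.1
      have h2 : q < p := (le_max_right _ _).trans_lt hp.1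
      have h3 := hn p h1 hp.2
      rw [isMinimizer_iff H hq0 h2.le hp.2, not_le] at h3
      have h4 : sInf (goodSet H p) * p ≤ sInf (goodSet H p) :=
        mul_le_of_le_one_right (rho_nonneg H p) hp.2.le
      exact (le_max_left _ _).trans_lt (h3.trans_le h4)
    · intro a ha
      filter_upwards [Ioo_mem_nhdsLT (zero_lt_one (α := ℝ))] with p hp
      exact (rho_le_one H hp.1 hp.2).trans_lt ha

end Pool.FOT
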