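import Pool.Agent.H22.FOT.Defs

/-! Row ROW of the board fot (MP_f0e2ba_pr): comparison of `t(H, W)` with `t(H, repl W q B)`. -/

open MeasureTheory unitInterval Set Filter Topology

namespace Pool.FOT.ROWrow

open Pool.Agent.H99.LowerTail

set_option linter.unusedSectionVars false

variable {V : Type} [Fintype V]

lemma mp_integral {α β : Type} [MeasurableSpace α] [MeasurableSpace β] {μ : Measure α}
    {ν : Measure β} {f : α → β} (hmp : MeasurePreserving f μ ν) {g : β → ℝ} (hg : Measurable g) :
    ∫ x, g (f x) ∂μ = ∫ y, g y ∂ν := by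
  rw [← hmp.map_eq, integral_map hmp.measurable.aemeasurable hg.aestronglyMeasurable]

lemma int4 {α : Type} [MeasurableSpace α] {μ : Measure α} {f1 f2 f3 f4 : α → ℝ}
    (h1 : Integrable f1 μ) (h2 : Integrable f2 μ) (h3 : Integrable f3 μ) (h4 : Integrable f4 μ) :
    ∫ x, (f1 x + f2 x - f3 x - f4 x) ∂μ =
      ∫ x, f1 x ∂μ + ∫ x, f2 x ∂μ - ∫ x, f3 x ∂μ - ∫ x, f4 x ∂μ := by
  have h12 : Integrable (fun x => f1 x + f2 x) μ := h1.add h2
  have h123 : Integrable (fun x => f1 x + f2 x - f3 x) μ := h12.sub h3
  rw [integral_sub h123 h4, integral_sub h12 h3, integral_add h1 h2]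

lemma integ_bdd {F : (V → I) → ℝ} (hm : Measurable F) (C : ℝ) (hb : ∀ x, |F x| ≤ C) :
    Integrable F :=
  Integrable.of_bound hm.aestronglyMeasurable C (Eventually.of_forall fun x => by
    rw [Real.norm_eq_abs]; exact hb x)

/-- The indicator of `B` at the point of the vertex `v`. -/
noncomputable def ind (B : Set I) (v : V) (x : V → I) : ℝ := B.indicator (fun _ => (1 : ℝ)) (x v)

lemma ind_nonneg (B : Set I) (v : V) (x : V → I) : 0 ≤ ind B v x :=
  Set.indicator_nonneg (fun _ _ => zero_le_one) _

lemma ind_le_one (B : Set I) (v : V) (x : V → I) : ind B v x ≤ 1 :=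
  Set.indicator_le_self' (f := fun _ => (1 : ℝ)) (fun _ _ => zero_le_one) _

lemma measurable_ind1 {B : Set I} (hB : MeasurableSet B) :
    Measurable (B.indicator (fun _ => (1 : ℝ))) := measurable_const.indicator hB

lemma measurable_ind {B : Set I} (hB : MeasurableSet B) (v : V) :
    Measurable (ind B v) := (measurable_ind1 hB).comp (measurable_pi_apply v)

lemma integral_ind1 {B : Set I} (hB : MeasurableSet B) :
    ∫ t : I, B.indicator (fun _ => (1 : ℝ)) t = volume.real B := by
  rw [integral_indicator hB]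
  simp [Measure.real]

lemma integral_ind {B : Set I} (hB : MeasurableSet B) (v : V) :
    ∫ x : V → I, ind B v x = volume.real B := by
  rw [← integral_ind1 hB]
  have hmp : MeasurePreserving (fun x : V → I => x v) volume volume :=
    measurePreserving_eval (fun _ : V => (volume : Measure I)) v
  exact mp_integral hmp (measurable_ind1 hB)

lemma abs_prod_le_one (W : Graphon) (F : Finset (Sym2 V)) (x : V → I) :
    |∏ e ∈ F, edgeVal W x e| ≤ 1 := by
  rw [abs_of_nonneg (Finset.prod_nonneg fun e _ => edgeVal_nonneg W x e)]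
  exact Finset.prod_le_one (fun e _ => edgeVal_nonneg W x e) (fun e _ => edgeVal_le_one W x e)

lemma measurable_prod_edgeVal (W : Graphon) (F : Finset (Sym2 V)) :
    Measurable (fun x : V → I => ∏ e ∈ F, edgeVal W x e) :=
  Finset.measurable_prod _ fun e _ => measurable_edgeVal W e

/-- `∫ |W - q| ≤ N`. -/
lemma integral_abs_le (W : Graphon) (q N : ℝ) (hN : 0 ≤ N) (h : nsq W q ≤ N ^ 2) :
    ∫ z : I × I, |W z.1 z.2 - q| ≤ N := by
  have hi : Integrable (fun z : I × I => |W z.1 z.2 - q|) :=
    integrable_comp (f := fun t => |t - q|) (by fun_prop) W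
  have hi2 : Integrable (fun z : I × I => (W z.1 z.2 - q) ^ 2) :=
    integrable_comp (f := fun t => (t - q) ^ 2) (by fun_prop) W
  set m := ∫ z : I × I, |W z.1 z.2 - q| with hm
  have h0 : 0 ≤ m := integral_nonneg fun z => abs_nonneg _
  have h1 : 0 ≤ ∫ z : I × I, ((W z.1 z.2 - q) ^ 2 - 2 * m * |W z.1 z.2 - q| + m ^ 2) := by
    refine integral_nonneg fun z => ?_
    show 0 ≤ (W z.1 z.2 - q) ^ 2 - 2 * m * |W z.1 z.2 - q| + m ^ 2
    rw [← sq_abs (W z.1 z.2 - q)]
    nlinarith [sq_nonneg (|W z.1 z.2 - q| - m)]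
  have h2 : ∫ z : I × I, ((W z.1 z.2 - q) ^ 2 - 2 * m * |W z.1 z.2 - q| + m ^ 2) =
      nsq W q - 2 * m * m + m ^ 2 := by
    have hs : Integrable (fun z : I × I => (W z.1 z.2 - q) ^ 2 - 2 * m * |W z.1 z.2 - q|) :=
      hi2.sub (hi.const_mul _)
    rw [integral_add hs (integrable_const _), integral_sub hi2 (hi.const_mul _),
      integral_const_mul, ← hm]
    simp [nsq]
  rw [h2] at h1
  have h3 : m ^ 2 ≤ N ^ 2 := by nlinarith
  exact (sq_le_sq₀ h0 hN).1 h3

/-- A vertex and a disjoint pair. -/
lemma integral_far (hEVT : EVTStmt) (W : Graphon) (q N : ℝ) (hN : 0 ≤ N) (h : nsq W q ≤ N ^ 2)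
    {B : Set I} (hB : MeasurableSet B) (v : V) (e : Sym2 V) (hd : ¬ e.IsDiag) (hv : v ∉ e) :
    ∫ x : V → I, ind B v x * |edgeVal W x e - q| ≤ volume.real B * N := by
  induction e using Sym2.ind with
  | _ i j =>
    rw [Sym2.mem_iff, not_or] at hv
    rw [Sym2.mk_isDiag_iff] at hd
    have hmp := hEVT V I (volume : Measure I) v i j hv.1 hv.2 hd
    have hW : Measurable (fun z : I × I => W z.1 z.2) := W.measurable'
    have hg : Measurable (fun z : I × (I × I) =>
        B.indicator (fun _ => (1 : ℝ)) z.1 * |W z.2.1 z.2.2 - q|) := by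
      refine ((measurable_ind1 hB).comp measurable_fst).mul ?_
      have h1 : Measurable (fun z : I × (I × I) => W z.2.1 z.2.2) := hW.comp measurable_snd
      exact continuous_abs.measurable.comp (h1.sub_const q)
    have h1 := mp_integral hmp hg
    have h2 : ∫ z : I × (I × I), B.indicator (fun _ => (1 : ℝ)) z.1 * |W z.2.1 z.2.2 - q|
        ∂((volume : Measure I).prod ((volume : Measure I).prod (volume : Measure I))) =
        (∫ t : I, B.indicator (fun _ => (1 : ℝ)) t) * ∫ z : I × I, |W z.1 z.2 - q| :=
      integral_prod_mul (μ := (volume : Measure I))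
        (ν := (volume : Measure I).prod (volume : Measure I))
        (B.indicator (fun _ => (1 : ℝ))) (fun z : I × I => |W z.1 z.2 - q|)
    rw [integral_ind1 hB] at h2
    have h3 : ∫ x : V → I, ind B v x * |edgeVal W x s(i, j) - q| =
        volume.real B * ∫ z : I × I, |W z.1 z.2 - q| := by
      rw [← h2, ← h1]
      rfl
    rw [h3]
    exact mul_le_mul_of_nonneg_left (integral_abs_le W q N hN h) measureReal_nonneg

/-- Two different vertices. -/
lemma integral_two (hEVP : EVPStmt) {B : Set I} (hB : MeasurableSet B) (v w : V) (hvw : v ≠ w) :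
    ∫ x : V → I, ind B v x * ind B w x = volume.real B * volume.real B := by
  have hmp := hEVP V I (volume : Measure I) v w hvw
  have hg : Measurable (fun z : I × I =>
      B.indicator (fun _ => (1 : ℝ)) z.1 * B.indicator (fun _ => (1 : ℝ)) z.2) :=
    ((measurable_ind1 hB).comp measurable_fst).mul ((measurable_ind1 hB).comp measurable_snd)
  have h1 := mp_integral hmp hg
  have h2 : ∫ z : I × I, B.indicator (fun _ => (1 : ℝ)) z.1 * B.indicator (fun _ => (1 : ℝ)) z.2
      ∂((volume : Measure I).prod (volume : Measure I)) =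
      (∫ t : I, B.indicator (fun _ => (1 : ℝ)) t) * ∫ t : I, B.indicator (fun _ => (1 : ℝ)) t :=
    integral_prod_mul (μ := (volume : Measure I)) (ν := (volume : Measure I))
      (B.indicator (fun _ => (1 : ℝ))) (B.indicator (fun _ => (1 : ℝ)))
  rw [integral_ind1 hB] at h2
  rw [← h2, ← h1]
  rfl

open Classical in
lemma dg_le (H : SimpleGraph V) (v : V) : dg H v ≤ numEdges H := by
  unfold dg numEdges
  rw [← SimpleGraph.card_incidenceFinset_eq_degree]
  exact Finset.card_le_card (SimpleGraph.incidenceFinset_subset H v)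

open Classical in
lemma not_diag_of_mem {H : SimpleGraph V} {e : Sym2 V} (he : e ∈ edges H) : ¬ e.IsDiag := by
  unfold edges at he
  exact SimpleGraph.not_isDiag_of_mem_edgeFinset he

end Pool.FOT.ROWrow

namespace Pool.FOT

open Pool.Agent.H99.LowerTail ROWrow

theorem t_row (hPTW : PTWStmt) (hSTR : STRStmt) (hEVT : EVTStmt) (hEVP : EVPStmt) : ROWStmt := by
  classical
  intro V _ H W q hq B hB N hN hnsq
  set R := repl W q hq B hB with hR
  set b := volume.real B with hb
  have hb0 : 0 ≤ b := measureReal_nonneg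
  set e := numEdges H with he
  set k : ℝ := (Fintype.card V : ℝ) with hk
  have hk0 : 0 ≤ k := Nat.cast_nonneg _
  have he0 : (0 : ℝ) ≤ (e : ℝ) := Nat.cast_nonneg _
  -- the pieces
  let S : V → (V → I) → ℝ := fun v x => ∏ f ∈ (edges H).filter (fun f => v ∈ f), edgeVal W x f
  have hSm : ∀ v, Measurable (S v) := fun v => measurable_prod_edgeVal W _
  have hSb : ∀ v x, |S v x| ≤ 1 := fun v x => abs_prod_le_one W _ x
  -- second piece
  have hi2 : ∀ v : V, Integrable (fun x : V → I => ind B v x * (q ^ (e - dg H v) * S v x - q ^ e)) := by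
    intro v
    refine integ_bdd ((measurable_ind hB v).mul (((hSm v).const_mul _).sub_const _)) 2 fun x => ?_
    have h1 : |ind B v x| ≤ 1 := by
      rw [abs_of_nonneg (ind_nonneg B v x)]; exact ind_le_one B v x
    have h2 : |q ^ (e - dg H v) * S v x - q ^ e| ≤ 2 := by
      have h3 : |q ^ (e - dg H v) * S v x| ≤ 1 := by
        rw [abs_mul, abs_of_nonneg (pow_nonneg hq.1 _)]
        exact mul_le_one₀ (pow_le_one₀ hq.1 hq.2) (abs_nonneg _) (hSb v x)
      have h4 : |q ^ e| ≤ 1 := by
        rw [abs_of_nonneg (pow_nonneg hq.1 _)]; exact pow_le_one₀ hq.1 hq.2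
      exact (abs_sub _ _).trans (by linarith)
    rw [abs_mul]
    nlinarith [abs_nonneg (ind B v x), abs_nonneg (q ^ (e - dg H v) * S v x - q ^ e)]
  have hI2 : ∀ v : V, ∫ x : V → I, ind B v x * (q ^ (e - dg H v) * S v x - q ^ e) =
      q ^ (e - dg H v) * (∫ t in B, (rowAv W t ^ dg H v - q ^ dg H v)) := by
    intro v
    have h1 : Integrable (fun x : V → I => ind B v x * S v x) := by
      refine integ_bdd ((measurable_ind hB v).mul (hSm v)) 1 fun x => ?_
      rw [abs_mul, abs_of_nonneg (ind_nonneg B v x)]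
      exact mul_le_one₀ (ind_le_one B v x) (abs_nonneg _) (hSb v x)
    have h2 : Integrable (fun x : V → I => ind B v x) :=
      integ_bdd (measurable_ind hB v) 1 fun x => by
        rw [abs_of_nonneg (ind_nonneg B v x)]; exact ind_le_one B v x
    have h3 : ∫ x : V → I, ind B v x * S v x = ∫ t in B, rowAv W t ^ dg H v :=
      hSTR V H W B hB v
    have h4 : q ^ e = q ^ (e - dg H v) * q ^ dg H v := by
      rw [← pow_add, Nat.sub_add_cancel (dg_le H v)]
    have hrm : Measurable (rowAv W) :=
      (W.measurable'.stronglyMeasurable.integral_prod_right' (ν := (volume : Measure I))).measurable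
    have hr0 : ∀ t, 0 ≤ rowAv W t := fun t => integral_nonneg fun y => W.nonneg' _ _
    have hr1 : ∀ t, rowAv W t ≤ 1 := by
      intro t
      have h5 : ∫ y : I, W t y ≤ ∫ _ : I, (1 : ℝ) := by
        refine integral_mono_of_nonneg (Eventually.of_forall fun y => W.nonneg' _ _)
          (integrable_const _) (Eventually.of_forall fun y => W.le_one' _ _)
      rw [integral_const, probReal_univ, one_smul] at h5
      exact h5
    have h6 : IntegrableOn (fun t => rowAv W t ^ dg H v) B := by
      refine Integrable.integrableOn ?_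
      refine Integrable.of_bound (hrm.pow_const _).aestronglyMeasurable 1
        (Eventually.of_forall fun t => ?_)
      rw [Real.norm_eq_abs, abs_of_nonneg (pow_nonneg (hr0 t) _)]
      exact pow_le_one₀ (hr0 t) (hr1 t)
    have h7 : ∫ x : V → I, ind B v x * (q ^ (e - dg H v) * S v x - q ^ e) =
        q ^ (e - dg H v) * (∫ x : V → I, ind B v x * S v x) - q ^ e * ∫ x : V → I, ind B v x := by
      rw [← integral_const_mul, ← integral_const_mul, ← integral_sub (h1.const_mul _)
        (h2.const_mul _)]
      refine integral_congr_ae (Eventually.of_forall fun x => ?_)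
      show ind B v x * (q ^ (e - dg H v) * S v x - q ^ e) =
        q ^ (e - dg H v) * (ind B v x * S v x) - q ^ e * ind B v x
      ring
    rw [h7, h3, integral_ind hB, integral_sub h6 (integrable_const _), h4]
    have h8 : ∫ _ in B, q ^ dg H v = b * q ^ dg H v := by
      rw [setIntegral_const, smul_eq_mul]
    rw [h8]
    ring
  -- third piece
  have hi3 : ∀ (v : V) (f : Sym2 V), Integrable (fun x : V → I => ind B v x * |edgeVal W x f - q|) := by
    intro v f
    refine integ_bdd ((measurable_ind hB v).mul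
      (continuous_abs.measurable.comp ((measurable_edgeVal W f).sub_const q))) 1 fun x => ?_
    rw [abs_mul, abs_of_nonneg (ind_nonneg B v x), abs_abs]
    refine mul_le_one₀ (ind_le_one B v x) (abs_nonneg _) ?_
    rw [abs_le]
    constructor
    · linarith [edgeVal_nonneg W x f, hq.2]
    · linarith [edgeVal_le_one W x f, hq.1]
  -- fourth piece
  have hi4 : ∀ v w : V, Integrable (fun x : V → I => ind B v x * ind B w x) := by
    intro v w
    refine integ_bdd ((measurable_ind hB v).mul (measurable_ind hB w)) 1 fun x => ?_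
    rw [abs_mul, abs_of_nonneg (ind_nonneg B v x), abs_of_nonneg (ind_nonneg B w x)]
    exact mul_le_one₀ (ind_le_one B v x) (ind_nonneg B w x) (ind_le_one B w x)
  have hW1 : Integrable (fun x : V → I => ∏ f ∈ edges H, edgeVal W x f) :=
    integrable_prod_edgeVal H W
  have hR1 : Integrable (fun x : V → I => ∏ f ∈ edges H, edgeVal R x f) :=
    integrable_prod_edgeVal H R
  have hi2' : Integrable (fun x : V → I => ∑ v : V,
      ind B v x * (q ^ (e - dg H v) * S v x - q ^ e)) := integrable_finsetSum _ fun v _ => hi2 v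
  have hi3' : Integrable (fun x : V → I => ∑ v : V, ∑ f ∈ (edges H).filter (fun f => v ∉ f),
      ind B v x * |edgeVal W x f - q|) :=
    integrable_finsetSum _ fun v _ => integrable_finsetSum _ fun f _ => hi3 v f
  have hi4' : Integrable (fun x : V → I => (k + 1) * ∑ v : V,
      ∑ w ∈ Finset.univ.filter (fun w => w ≠ v), ind B v x * ind B w x) :=
    (integrable_finsetSum _ fun v _ => integrable_finsetSum _ fun w _ => hi4 v w).const_mul _
  have hpt : ∀ x : V → I, (∏ f ∈ edges H, edgeVal R x f
      + ∑ v : V, ind B v x * (q ^ (e - dg H v) * S v x - q ^ e))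
      - (∑ v : V, ∑ f ∈ (edges H).filter (fun f => v ∉ f), ind B v x * |edgeVal W x f - q|)
      - ((k + 1) * ∑ v : V, ∑ w ∈ Finset.univ.filter (fun w => w ≠ v), ind B v x * ind B w x)
      ≤ ∏ f ∈ edges H, edgeVal W x f := fun x => hPTW V H W q hq B hB x
  have hint := integral_mono (((hR1.add hi2').sub hi3').sub hi4') hW1 hpt
  have hsplit : ∫ x : V → I, ((∏ f ∈ edges H, edgeVal R x f
      + ∑ v : V, ind B v x * (q ^ (e - dg H v) * S v x - q ^ e))
      - (∑ v : V, ∑ f ∈ (edges H).filter (fun f => v ∉ f), ind B v x * |edgeVal W x f - q|)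
      - ((k + 1) * ∑ v : V, ∑ w ∈ Finset.univ.filter (fun w => w ≠ v), ind B v x * ind B w x)) =
      (homDensity H R + ∑ v : V, q ^ (e - dg H v) *
        (∫ t in B, (rowAv W t ^ dg H v - q ^ dg H v)))
      - (∑ v : V, ∑ f ∈ (edges H).filter (fun f => v ∉ f),
          ∫ x : V → I, ind B v x * |edgeVal W x f - q|)
      - ((k + 1) * ∑ v : V, ∑ w ∈ Finset.univ.filter (fun w => w ≠ v),
          ∫ x : V → I, ind B v x * ind B w x) := by
    rw [int4 hR1 hi2' hi3' hi4', integral_const_mul, integral_finsetSum _ fun v _ => hi2 v,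
      integral_finsetSum _ fun v _ => integrable_finsetSum _ fun f _ => hi3 v f,
      integral_finsetSum _ fun v _ => integrable_finsetSum _ fun w _ => hi4 v w]
    have e3 : ∀ v : V, ∫ x : V → I, ∑ f ∈ (edges H).filter (fun f => v ∉ f),
        ind B v x * |edgeVal W x f - q| = ∑ f ∈ (edges H).filter (fun f => v ∉ f),
          ∫ x : V → I, ind B v x * |edgeVal W x f - q| := fun v =>
      integral_finsetSum _ fun f _ => hi3 v f
    have e4 : ∀ v : V, ∫ x : V → I, ∑ w ∈ Finset.univ.filter (fun w => w ≠ v),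
        ind B v x * ind B w x = ∑ w ∈ Finset.univ.filter (fun w => w ≠ v),
          ∫ x : V → I, ind B v x * ind B w x := fun v =>
      integral_finsetSum _ fun w _ => hi4 v w
    simp only [hI2, e3, e4]
    rfl
  have h3 : ∑ v : V, ∑ f ∈ (edges H).filter (fun f => v ∉ f),
      (∫ x : V → I, ind B v x * |edgeVal W x f - q|) ≤ k * (e * (b * N)) := by
    have h31 : ∀ v : V, ∑ f ∈ (edges H).filter (fun f => v ∉ f),
        (∫ x : V → I, ind B v x * |edgeVal W x f - q|) ≤ e * (b * N) := by
      intro v
      have hbN : 0 ≤ b * N := mul_nonneg hb0 hN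
      calc ∑ f ∈ (edges H).filter (fun f => v ∉ f),
            (∫ x : V → I, ind B v x * |edgeVal W x f - q|)
          ≤ ∑ _f ∈ (edges H).filter (fun f => v ∉ f), b * N := by
            refine Finset.sum_le_sum fun f hf => ?_
            rw [Finset.mem_filter] at hf
            exact integral_far hEVT W q N hN hnsq hB v f (not_diag_of_mem hf.1) hf.2
        _ = ((edges H).filter (fun f => v ∉ f)).card * (b * N) := by
            rw [Finset.sum_const, nsmul_eq_mul]
        _ ≤ e * (b * N) := by
            refine mul_le_mul_of_nonneg_right ?_ hbN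
            have : ((edges H).filter (fun f => v ∉ f)).card ≤ e := by
              rw [he, numEdges_eq]
              exact Finset.card_filter_le _ _
            exact_mod_cast this
    calc _ ≤ ∑ _v : V, (e : ℝ) * (b * N) := Finset.sum_le_sum fun v _ => h31 v
      _ = k * (e * (b * N)) := by
          rw [Finset.sum_const, nsmul_eq_mul, Finset.card_univ]
  have h4 : ∑ v : V, ∑ w ∈ Finset.univ.filter (fun w => w ≠ v),
      (∫ x : V → I, ind B v x * ind B w x) ≤ k * (k * (b * b)) := by
    have h41 : ∀ v : V, ∑ w ∈ Finset.univ.filter (fun w => w ≠ v),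
        (∫ x : V → I, ind B v x * ind B w x) ≤ k * (b * b) := by
      intro v
      calc ∑ w ∈ Finset.univ.filter (fun w => w ≠ v), (∫ x : V → I, ind B v x * ind B w x)
          = ∑ _w ∈ Finset.univ.filter (fun w => w ≠ v), b * b := by
            refine Finset.sum_congr rfl fun w hw => ?_
            rw [Finset.mem_filter] at hw
            exact integral_two hEVP hB v w (Ne.symm hw.2)
        _ = (Finset.univ.filter (fun w => w ≠ v)).card * (b * b) := by
            rw [Finset.sum_const, nsmul_eq_mul]
        _ ≤ k * (b * b) := by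
            refine mul_le_mul_of_nonneg_right ?_ (mul_nonneg hb0 hb0)
            have h9 : (Finset.univ.filter (fun w => w ≠ v)).card ≤ Fintype.card V := by
              rw [← Finset.card_univ]
              exact Finset.card_filter_le _ _
            rw [hk]
            exact Nat.cast_le.2 h9
    calc _ ≤ ∑ _v : V, k * (b * b) := Finset.sum_le_sum fun v _ => h41 v
      _ = k * (k * (b * b)) := by
          rw [Finset.sum_const, nsmul_eq_mul, Finset.card_univ]
  replace hint := hsplit.symm.le.trans hint
  have hfin : k * (e * (b * N)) + (k + 1) * (k * (k * (b * b))) ≤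
      ((Fintype.card V + 1 : ℕ) : ℝ) ^ 3 * (e + 1) * (b * (b + N)) := by
    push_cast
    rw [← hk]
    have hbN : 0 ≤ b * N := mul_nonneg hb0 hN
    have hbb : 0 ≤ b * b := mul_nonneg hb0 hb0
    have a1 : k * e ≤ (k + 1) ^ 3 * (e + 1) := by
      have : k ≤ (k + 1) ^ 3 := by nlinarith [mul_nonneg hk0 hk0, mul_nonneg hk0 (mul_nonneg hk0 hk0)]
      have h3 : 0 ≤ (k + 1) ^ 3 := by positivity
      nlinarith
    have a2 : (k + 1) * (k * k) ≤ (k + 1) ^ 3 * (e + 1) := by
      have : (k + 1) * (k * k) ≤ (k + 1) ^ 3 := by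
        nlinarith [mul_nonneg hk0 hk0]
      have h3 : 0 ≤ (k + 1) ^ 3 := by positivity
      nlinarith
    have b1 := mul_le_mul_of_nonneg_right a1 hbN
    have b2 := mul_le_mul_of_nonneg_right a2 hbb
    nlinarith
  have h4' := mul_le_mul_of_nonneg_left h4 (by linarith : (0 : ℝ) ≤ k + 1)
  have hWd : ∫ x : V → I, ∏ f ∈ edges H, edgeVal W x f = homDensity H W := rfl
  rw [hWd] at hint
  linarith

end Pool.FOT
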